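import Pool.Agent.H48.ER.Targets

/-!
# er board, ROT: rotation of a hole
helper54
-/

set_option autoImplicit false

open Pool.Agent.H48.ER

namespace Pool.Agent.H54.ER

theorem pf_ROT : T_ROT := by
  intro V G n u v c R hIP hn hcR hcu hcv hcw w hw
  obtain ⟨g, g0, gn, gi, ga, hR⟩ := hIP
  have hgR : ∀ i, i ≤ n → g i ∈ R := fun i hi => by rw [hR]; exact ⟨i, hi, rfl⟩
  have hcne : ∀ i, i ≤ n → g i ≠ c := fun i hi h => hcR (h ▸ hgR i hi)
  have hca : ∀ i, i ≤ n → (G.Adj c (g i) ↔ i = 0 ∨ i = n) := by
    intro i hi
    constructor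
    · intro h
      rcases hcw _ (hgR i hi) h with h1 | h1
      · exact Or.inl (gi i 0 hi (Nat.zero_le _) (h1.trans g0.symm))
      · exact Or.inr (gi i n hi le_rfl (h1.trans gn.symm))
    · rintro (rfl | rfl)
      · rw [g0]
        exact hcu
      · rw [gn]
        exact hcv
  rw [hR] at hw
  obtain ⟨i, hi, rfl⟩ := hw
  obtain ⟨a, ha⟩ : ∃ a, a = n - i := ⟨_, rfl⟩
  obtain ⟨k, k1, k2, k3⟩ : ∃ k : ℕ → V, (∀ j, j < a → k j = g (i + 1 + j)) ∧ k a = c ∧
      ∀ j, a < j → k j = g (j - a - 1) := by
    refine ⟨fun j => if j < a then g (i + 1 + j) else if j = a then c else g (j - a - 1),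
      ?_, ?_, ?_⟩
    · intro j hj
      exact if_pos hj
    · show (if a < a then g (i + 1 + a) else if a = a then c else g (a - a - 1)) = c
      rw [if_neg (lt_irrefl a), if_pos rfl]
    · intro j hj
      show (if j < a then g (i + 1 + j) else if j = a then c else g (j - a - 1)) = _
      rw [if_neg (by omega), if_neg (by omega)]
  refine ⟨k 0, k n, {t | ∃ j, j ≤ n ∧ k j = t}, ⟨k, rfl, rfl, ?_, ?_, rfl⟩, ?_, ?_, ?_, ?_, ?_⟩
  · -- injective
    intro j l hj hl e
    rcases lt_trichotomy j a with h1 | h1 | h1 <;> rcases lt_trichotomy l a with h2 | h2 | h2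
    · rw [k1 j h1, k1 l h2] at e
      have := gi _ _ (by omega) (by omega) e
      omega
    · rw [k1 j h1, h2, k2] at e
      exact absurd e (hcne _ (by omega))
    · rw [k1 j h1, k3 l h2] at e
      have := gi _ _ (by omega) (by omega) e
      omega
    · rw [h1, k2, k1 l h2] at e
      exact absurd e.symm (hcne _ (by omega))
    · exact h1.trans h2.symm
    · rw [h1, k2, k3 l h2] at e
      exact absurd e.symm (hcne _ (by omega))
    · rw [k3 j h1, k1 l h2] at e
      have := gi _ _ (by omega) (by omega) e
      omega
    · rw [k3 j h1, h2, k2] at e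
      exact absurd e (hcne _ (by omega))
    · rw [k3 j h1, k3 l h2] at e
      have := gi _ _ (by omega) (by omega) e
      omega
  · -- adjacency
    intro j l hj hl
    rcases lt_trichotomy j a with h1 | h1 | h1 <;> rcases lt_trichotomy l a with h2 | h2 | h2
    · rw [k1 j h1, k1 l h2, ga _ _ (by omega) (by omega)]
      omega
    · rw [k1 j h1, h2, k2, SimpleGraph.adj_comm, hca _ (by omega)]
      omega
    · rw [k1 j h1, k3 l h2, ga _ _ (by omega) (by omega)]
      omega
    · rw [h1, k2, k1 l h2, hca _ (by omega)]
      omega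
    · rw [h1, h2]
      constructor
      · intro h
        exact absurd h (G.loopless.irrefl _)
      · intro h
        omega
    · rw [h1, k2, k3 l h2, hca _ (by omega)]
      omega
    · rw [k3 j h1, k1 l h2, ga _ _ (by omega) (by omega)]
      omega
    · rw [k3 j h1, h2, k2, SimpleGraph.adj_comm, hca _ (by omega)]
      omega
    · rw [k3 j h1, k3 l h2, ga _ _ (by omega) (by omega)]
      omega
  · -- `w` is not on the new path
    rintro ⟨j, hj, e⟩
    rcases lt_trichotomy j a with h1 | h1 | h1
    · rw [k1 j h1] at e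
      have := gi _ _ (by omega) (by omega) e
      omega
    · rw [h1, k2] at e
      exact hcne i hi e.symm
    · rw [k3 j h1] at e
      have := gi _ _ (by omega) (by omega) e
      omega
  · -- the vertex sets
    rw [hR]
    ext t
    constructor
    · rintro (rfl | ⟨j, hj, rfl⟩)
      · exact Or.inr ⟨i, hi, rfl⟩
      · rcases lt_trichotomy j a with h1 | h1 | h1
        · rw [k1 j h1]
          exact Or.inr ⟨_, by omega, rfl⟩
        · rw [h1, k2]
          exact Or.inl rfl
        · rw [k3 j h1]
          exact Or.inr ⟨_, by omega, rfl⟩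
    · rintro (rfl | ⟨l, hl, rfl⟩)
      · exact Or.inr ⟨a, by omega, k2⟩
      · rcases lt_trichotomy l i with h1 | rfl | h1
        · refine Or.inr ⟨a + 1 + l, by omega, ?_⟩
          rw [k3 _ (by omega)]
          have e : a + 1 + l - a - 1 = l := by omega
          rw [e]
        · exact Or.inl rfl
        · refine Or.inr ⟨l - i - 1, by omega, ?_⟩
          rw [k1 _ (by omega)]
          have e : i + 1 + (l - i - 1) = l := by omega
          rw [e]
  · -- first end
    by_cases h : 0 < a
    · rw [k1 0 h, ga _ _ hi (by omega)]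
      omega
    · have h0 : a = 0 := by omega
      have h1 : k 0 = c := by rw [← h0]; exact k2
      rw [h1, SimpleGraph.adj_comm, hca i hi]
      omega
  · -- last end
    by_cases h : a < n
    · rw [k3 n h, ga _ _ hi (by omega)]
      omega
    · have h0 : a = n := by omega
      have h1 : k n = c := by rw [← h0]; exact k2
      rw [h1, SimpleGraph.adj_comm, hca i hi]
      omega
  · rintro t ⟨j, hj, rfl⟩ hadj
    rcases lt_trichotomy j a with h1 | h1 | h1
    · rw [k1 j h1, ga _ _ hi (by omega)] at hadj
      have e : j = 0 := by omega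
      rw [e]
      exact Or.inl rfl
    · rw [h1, k2, SimpleGraph.adj_comm, hca i hi] at hadj
      rcases hadj with h2 | h2
      · right
        have e : j = n := by omega
        rw [e]
      · left
        have e : j = 0 := by omega
        rw [e]
    · rw [k3 j h1, ga _ _ hi (by omega)] at hadj
      have e : j = n := by omega
      rw [e]
      exact Or.inr rfl

end Pool.Agent.H54.ER
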